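import Pool.Agent.MP_1d62fe_al.Mg.Alt_F

set_option autoImplicit false

open Pool.Agent.MP_1d62fe_al

namespace Pool.Agent.Results.MP_1d62fe_al.AlternatingSocle

theorem result :
    ∀ (V : Type) [Finite V] (Γ : SimpleGraph V) (G : Subgroup (Γ ≃g Γ)) (d : ℕ),
      Γ.Connected →
      (∀ v : V, (Γ.neighborSet v).ncard = d) →
      (∀ u v u' v' : V, Γ.Adj u v → Γ.Adj u' v' → ∃ g ∈ G, g u = u' ∧ g v = v') →
      (∀ α : V, ∀ B : Set V, B ⊆ Γ.neighborSet α →
          (∀ g ∈ G, g α = α → ((⇑g) '' B = B ∨ Disjoint ((⇑g) '' B) B)) →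
          B.Subsingleton ∨ B = Γ.neighborSet α) →
      ∀ (l n : ℕ), 17 ≤ n → ∀ (α : V) (ι : localGroup Γ G α →* Equiv.Perm (Fin l × Fin n)),
        Function.Injective ι →
        (∀ σ a b, a.1 = b.1 → (ι σ a).1 = (ι σ b).1) →
        (∀ (i : Fin l), ∀ τ ∈ alternatingGroup (Fin n), ∃ σ, ∀ a : Fin l × Fin n,
          ι σ a = if a.1 = i then (a.1, τ a.2) else a) →
        Nat.card {g : Γ ≃g Γ // g ∈ G ∧ g α = α} ≤ ((d + 1) ^ 4).factorial := by
  intro V _ Γ G d hc hd harc hprim l n hn α ι hι hf hA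
  have := finite_aut Γ
  refine card_le_of_fix Γ G d hd α 4 fun g hg h => ?_
  have h1 := fix_of_W (mkSetup Γ G hc harc hprim) (k := 3) (fun x y hxy => by
    obtain ⟨β, hβ⟩ : ∃ β, Γ.Adj α β := by
      obtain ⟨w⟩ := hc.preconnected α x
      cases w with
      | nil => exact ⟨y, hxy⟩
      | cons h _ => exact ⟨_, h⟩
    obtain ⟨S, hS⟩ := W.exists_alt Γ G hc harc hprim hn hβ ι hι hf hA
    rw [← hS] at hxy ⊢
    exact S.W_three hxy) α ⟨g, hg⟩ h
  exact congrArg Subtype.val h1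

end Pool.Agent.Results.MP_1d62fe_al.AlternatingSocle
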