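import Pool.Agent.MP_1d62fe_al.Mg.Main

set_option autoImplicit false

open Pool.Agent.MP_1d62fe_al

namespace Pool.Agent.Results.MP_1d62fe_al.ExtremalOffenders

theorem result :
    ∀ (V : Type) [Finite V] (Γ : SimpleGraph V) (G : Subgroup (Γ ≃g Γ)) (d : ℕ),
      Γ.Connected →
      (∀ v : V, (Γ.neighborSet v).ncard = d) →
      (∀ u v u' v' : V, Γ.Adj u v → Γ.Adj u' v' → ∃ g ∈ G, g u = u' ∧ g v = v') →
      (∀ α : V, ∀ B : Set V, B ⊆ Γ.neighborSet α →
          (∀ g ∈ G, g α = α → ((⇑g) '' B = B ∨ Disjoint ((⇑g) '' B) B)) →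
          B.Subsingleton ∨ B = Γ.neighborSet α) →
      (∀ (α : V) (ω : Γ.neighborSet α), OffendersExtremal (localGroup Γ G α) ω) →
      ∀ α : V, Nat.card {g : Γ ≃g Γ // g ∈ G ∧ g α = α} ≤ ((d + 1) ^ 4).factorial := by
  intro V _ Γ G d hc hd harc hprim hO α
  have := finite_aut Γ
  refine card_le_of_fix Γ G d hd α 4 fun g hg h => ?_
  have h1 := fix_of_W (mkSetup Γ G hc harc hprim) (k := 3)
    (fun x y hxy => Setup.W_three _ (fun x u h => by
      rw [range_loc]; exact hO x ⟨u, h⟩) hxy) α ⟨g, hg⟩ h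
  exact congrArg Subtype.val h1

end Pool.Agent.Results.MP_1d62fe_al.ExtremalOffenders
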